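import Pool.Agent.Lib.MP_fa837f_gt.P2.Iface

/-!
Module KL: the kernel identity (dominated convergence).
-/

set_option autoImplicit false

open MeasureTheory Matrix Set Filter Topology

namespace Pool.Agent.Lib.MP_fa837f_gt.P2.H4

variable {n k : ℕ}

/-- An exponential sum. -/
noncomputable def vs {M : ℕ} (C : Fin M → ℝ) (x : ℝ) : ℝ :=
  ∑ j : Fin M, C j * Real.exp (-((((j : ℕ) : ℝ) + 1) * x))

/-- Minus its derivative. -/
noncomputable def ws {M : ℕ} (C : Fin M → ℝ) (x : ℝ) : ℝ :=
  ∑ j : Fin M, C j * ((((j : ℕ) : ℝ) + 1) * Real.exp (-((((j : ℕ) : ℝ) + 1) * x)))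

theorem vs_cont {M : ℕ} (C : Fin M → ℝ) : Continuous (vs C) := by
  unfold vs
  fun_prop

theorem ws_cont {M : ℕ} (C : Fin M → ℝ) : Continuous (ws C) := by
  unfold ws
  fun_prop

theorem gm_cont (m : Fin n → Fin k → ℝ) (i : Fin n) : Continuous fun y : Pt k => Gm m y i i := by
  unfold Gm Yv
  fun_prop

theorem gm_nonneg (m : Fin n → Fin k → ℝ) (y : Pt k) (i : Fin n) : 0 ≤ Gm m y i i :=
  Finset.sum_nonneg fun _ _ => mul_self_nonneg _

theorem dot_cont (m : Fin n → Fin k → ℝ) (i : Fin n) :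
    Continuous fun x : Fin k → ℝ => (m i ⬝ᵥ x) ^ 2 := by
  unfold dotProduct
  fun_prop

theorem mix_cont (m : Fin n → Fin k → ℝ) (v w : Fin n → Pt k → ℝ) (hv : ∀ i, Continuous (v i))
    (hw : ∀ i, Continuous (w i)) :
    Continuous fun y => mix m (fun i => v i y) (fun i => w i y) := by
  unfold mix
  refine continuous_finsetSum _ fun f _ => ?_
  refine Continuous.mul continuous_const (continuous_finsetProd _ fun i _ => ?_)
  by_cases h : i ∈ Set.range f
  · simp only [h, if_true]
    exact hw i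
  · simp only [h, if_false]
    exact hv i

/-- The constant in the bound of `mix`. -/
noncomputable def mc (m : Fin n → Fin k → ℝ) : ℝ :=
  ∑ f : Fin k → Fin n, |(∏ a, m (f a) a) * (Matrix.of fun a b => m (f a) b).det|

theorem mix_bound (m : Fin n → Fin k → ℝ) (v w b : Fin n → ℝ) (hv : ∀ i, |v i| ≤ b i)
    (hw : ∀ i, |w i| ≤ b i) : |mix m v w| ≤ mc m * ∏ i, b i := by
  unfold mix mc
  rw [Finset.sum_mul]
  refine (Finset.abs_sum_le_sum_abs _ _).trans (Finset.sum_le_sum fun f _ => ?_)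
  rw [abs_mul]
  refine mul_le_mul_of_nonneg_left ?_ (abs_nonneg _)
  rw [Finset.abs_prod]
  refine Finset.prod_le_prod (fun i _ => abs_nonneg _) fun i _ => ?_
  split_ifs
  · exact hw i
  · exact hv i

theorem mix_tendsto (m : Fin n → Fin k → ℝ) (v w : ℕ → Fin n → ℝ) (v' w' : Fin n → ℝ)
    (hv : ∀ i, Tendsto (fun N => v N i) atTop (𝓝 (v' i)))
    (hw : ∀ i, Tendsto (fun N => w N i) atTop (𝓝 (w' i))) :
    Tendsto (fun N => mix m (v N) (w N)) atTop (𝓝 (mix m v' w')) := by
  unfold mix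
  refine tendsto_finsetSum _ fun f _ => ?_
  refine Tendsto.mul tendsto_const_nhds (tendsto_finsetProd _ fun i _ => ?_)
  by_cases h : i ∈ Set.range f
  · simp only [h, if_true]
    exact hw i
  · simp only [h, if_false]
    exact hv i

theorem fin_id (hKm : KmStatement) (hKg : KgStatement) (m : Fin n → Fin k → ℝ) (hm : Spans m)
    (M : ℕ) (C : Fin n → Fin M → ℝ) :
    ∫ y : Pt k, mix m (fun i => vs (C i) (Gm m y i i)) (fun i => ws (C i) (Gm m y i i)) =
      gint (1 : Matrix (Fin k) (Fin k) ℝ) ^ 2 *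
        ∫ x : Fin k → ℝ, ∏ i, vs (C i) ((m i ⬝ᵥ x) ^ 2) := by
  have hg : ∀ J : Fin n → Fin M, _ := fun J =>
    hKg n k m (fun i => (((J i : ℕ) : ℝ) + 1)) hm (fun i => by positivity)
  have e1 : ∀ y : Pt k,
      mix m (fun i => vs (C i) (Gm m y i i)) (fun i => ws (C i) (Gm m y i i)) =
      ∑ J : Fin n → Fin M, (∏ i, C i (J i)) * ((RR m fun i => (((J i : ℕ) : ℝ) + 1)).det *
        Real.exp (-(∑ i, (((J i : ℕ) : ℝ) + 1) * Gm m y i i))) := by
    intro y
    have := (hKm n k m).2 M C (fun i j => Real.exp (-((((j : ℕ) : ℝ) + 1) * Gm m y i i)))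
      (fun j => ((j : ℕ) : ℝ) + 1)
    unfold vs ws
    rw [this]
    refine Finset.sum_congr rfl fun J _ => ?_
    rw [← Real.exp_sum, Finset.sum_neg_distrib]
  have e2 : ∀ x : Fin k → ℝ, ∏ i, vs (C i) ((m i ⬝ᵥ x) ^ 2) =
      ∑ J : Fin n → Fin M, (∏ i, C i (J i)) *
        Real.exp (-(∑ i, (((J i : ℕ) : ℝ) + 1) * (m i ⬝ᵥ x) ^ 2)) := by
    intro x
    unfold vs
    rw [Finset.prod_univ_sum]
    simp only [Fintype.piFinset_univ]
    refine Finset.sum_congr rfl fun J _ => ?_
    rw [Finset.prod_mul_distrib, ← Real.exp_sum, Finset.sum_neg_distrib]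
  simp only [e1, e2]
  rw [integral_finsetSum, integral_finsetSum, Finset.mul_sum]
  · refine Finset.sum_congr rfl fun J _ => ?_
    have h := (hg J).2.2
    rw [integral_const_mul] at h
    rw [integral_const_mul, integral_const_mul, integral_const_mul, h]
    ring
  · intro J _
    exact (hg J).2.1.const_mul _
  · intro J _
    exact ((hg J).1.const_mul _).const_mul _

theorem kl_st (hKm : KmStatement) (hKw : KwStatement) (hKg : KgStatement) : KlStatement := by
  intro n k S
  obtain ⟨M, C, B, hB, hC⟩ := hKw n S.c S.e S.δ S.hc S.he S.hδ0 S.hδ1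
  have h1 := hKg n k S.m (fun _ => 1) S.hm (fun _ => one_pos)
  -- the limit functions
  set kf : Fin n → ℝ → ℝ := fun i x =>
    Real.exp (-(S.c i / (1 + S.δ) * (x + S.e i) ^ (1 + S.δ))) with hkf
  have hrho : ∀ y : Pt k, S.rho y = mix S.m (fun i => kf i (Gm S.m y i i))
      (fun i => S.r y i * kf i (Gm S.m y i i)) := by
    intro y
    rw [(hKm n k S.m).1]
    unfold Sys.rho Sys.kap
    rw [← Finset.sum_neg_distrib, Real.exp_sum]
    rfl
  have lhs : Tendsto (fun N => ∫ y : Pt k, mix S.m (fun i => vs (C N i) (Gm S.m y i i))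
      (fun i => ws (C N i) (Gm S.m y i i))) atTop (𝓝 (∫ y, S.rho y)) := by
    refine tendsto_integral_of_dominated_convergence
      (fun y => mc S.m * (B ^ n * Real.exp (-(∑ i, (1 : ℝ) * Gm S.m y i i)))) ?_ ?_ ?_ ?_
    · intro N
      exact (mix_cont S.m (fun i y => vs (C N i) (Gm S.m y i i)) (fun i y => ws (C N i) (Gm S.m y i i))
        (fun i => (vs_cont _).comp (gm_cont S.m i))
        (fun i => (ws_cont _).comp (gm_cont S.m i))).aestronglyMeasurable
    · exact (h1.1.const_mul _).const_mul _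
    · intro N
      refine Eventually.of_forall fun y => ?_
      rw [Real.norm_eq_abs]
      refine (mix_bound S.m _ _ (fun i => B * Real.exp (-(Gm S.m y i i)))
        (fun i => (hB N i _ (gm_nonneg S.m y i)).1) (fun i => (hB N i _ (gm_nonneg S.m y i)).2)).trans
        (le_of_eq ?_)
      rw [Finset.prod_mul_distrib, Finset.prod_const, Finset.card_univ, Fintype.card_fin,
        ← Real.exp_sum, Finset.sum_neg_distrib]
      simp only [one_mul]
    · refine Eventually.of_forall fun y => ?_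
      rw [hrho y]
      refine mix_tendsto S.m _ _ _ _ (fun i => ?_) (fun i => ?_)
      · exact (hC i _ (gm_nonneg S.m y i)).1
      · exact (hC i _ (gm_nonneg S.m y i)).2
  have rhs : Tendsto (fun N => ∫ x : Fin k → ℝ, ∏ i, vs (C N i) ((S.m i ⬝ᵥ x) ^ 2)) atTop
      (𝓝 (F0 S.m S.c S.e S.δ)) := by
    unfold F0
    refine tendsto_integral_of_dominated_convergence
      (fun x => B ^ n * Real.exp (-(∑ i, (1 : ℝ) * (S.m i ⬝ᵥ x) ^ 2))) ?_ ?_ ?_ ?_
    · intro N
      exact (continuous_finsetProd _ fun i _ =>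
        (vs_cont _).comp (dot_cont S.m i)).aestronglyMeasurable
    · exact h1.2.1.const_mul _
    · intro N
      refine Eventually.of_forall fun x => ?_
      rw [Real.norm_eq_abs, Finset.abs_prod]
      refine (Finset.prod_le_prod (fun i _ => abs_nonneg _)
        (fun i _ => (hB N i _ (sq_nonneg (S.m i ⬝ᵥ x))).1)).trans (le_of_eq ?_)
      rw [Finset.prod_mul_distrib, Finset.prod_const, Finset.card_univ, Fintype.card_fin,
        ← Real.exp_sum, Finset.sum_neg_distrib]
      simp only [one_mul]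
    · refine Eventually.of_forall fun x => ?_
      rw [← Finset.sum_neg_distrib, Real.exp_sum]
      exact tendsto_finsetProd _ fun i _ => (hC i _ (sq_nonneg (S.m i ⬝ᵥ x))).1
  have rhs' := rhs.const_mul (gint (1 : Matrix (Fin k) (Fin k) ℝ) ^ 2)
  refine tendsto_nhds_unique lhs (rhs'.congr fun N => ?_)
  exact (fin_id hKm hKg S.m S.hm (M N) (C N)).symm

end Pool.Agent.Lib.MP_fa837f_gt.P2.H4
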